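import Pool.Agent.Helper61.TW.Defs

/-!
# Antiparallel twist regions: a one-component state smooths at most one crossing of a region

Between two consecutive smoothed crossings of a region there is a closed curve.
-/

set_option autoImplicit false

namespace Pool.Agent.Helper41.TW

open Pool.Agent.Helper85.Exp Pool.Agent.Helper61.TW Classical

variable {P : Type}

theorem trS_of {G : Sh P} {S : Finset P} {i : P} (h : i ∈ S ∨ G.op i ∈ S) :
    trS G S i = G.nxt (G.op i) := by
  unfold trS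
  rw [if_pos h]

theorem trS_of_not {G : Sh P} {S : Finset P} {i : P} (h : ¬ (i ∈ S ∨ G.op i ∈ S)) :
    trS G S i = G.nxt i := by
  unfold trS
  rw [if_neg h]

/-- the travelling map is injective -/
theorem trS_injective (G : Sh P) (S : Finset P) : Function.Injective (trS G S) := by
  have key : ∀ i, (i ∈ S ∨ G.op i ∈ S) ↔ (G.op i ∈ S ∨ G.op (G.op i) ∈ S) := by
    intro i
    rw [G.op_op]
    exact or_comm
  intro i j h
  by_cases hi : i ∈ S ∨ G.op i ∈ S
  · by_cases hj : j ∈ S ∨ G.op j ∈ S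
    · rw [trS_of hi, trS_of hj] at h
      have h1 := G.nxt.injective h
      rw [← G.op_op i, h1, G.op_op]
    · rw [trS_of hi, trS_of_not hj] at h
      have h1 := G.nxt.injective h
      exact absurd (h1 ▸ (key i).1 hi) hj
  · by_cases hj : j ∈ S ∨ G.op j ∈ S
    · rw [trS_of_not hi, trS_of hj] at h
      have h1 := G.nxt.injective h
      exact absurd (h1 ▸ (key j).1 hj) hi
    · rw [trS_of_not hi, trS_of_not hj] at h
      exact G.nxt.injective h

/-- a set which is invariant in both directions is missed or everything -/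
theorem not_Sg_of_inv {G : Sh P} {S : Finset P} (b : P) (C : P → Prop)
    (h1 : ∀ x, C x → C (trS G S x)) (h2 : ∀ x, C x → ∃ y, C y ∧ trS G S y = x) {p q : P}
    (hp : ¬ C p) (hq : C q) : ¬ Sg G b S := by
  intro hs
  by_cases hb : C b
  · have h : ∀ k : ℕ, C ((trS G S)^[k] b) := by
      intro k
      induction k with
      | zero => exact hb
      | succ k ih =>
        rw [Function.iterate_succ_apply']
        exact h1 _ ih
    obtain ⟨k, hk⟩ := hs p
    exact hp (hk ▸ h k)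
  · have h : ∀ k : ℕ, ¬ C ((trS G S)^[k] b) := by
      intro k
      induction k with
      | zero => exact hb
      | succ k ih =>
        rw [Function.iterate_succ_apply']
        intro hc
        obtain ⟨y, hy, hy2⟩ := h2 _ hc
        rw [trS_injective G S hy2] at hy
        exact ih hy
    obtain ⟨k, hk⟩ := hs q
    exact h k (hk ▸ hq)

/-- two consecutive smoothed crossings -/
theorem two_cons {G : Sh P} {A : Finset P} {m : P → ℕ} (hT : Twist G A m) (ho : ∀ i, G.op i ≠ i)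
    {a : P} (ha : a ∈ A) {r r' : ℕ} (hr : r < r') (hr' : r' < m a) {S : Finset P}
    (h : G.nxt^[r] a ∈ S ∨ G.op (G.nxt^[r] a) ∈ S)
    (h' : G.nxt^[r'] a ∈ S ∨ G.op (G.nxt^[r'] a) ∈ S)
    (hbet : ∀ s, r < s → s < r' → ¬ (G.nxt^[s] a ∈ S ∨ G.op (G.nxt^[s] a) ∈ S)) (b : P) :
    ¬ Sg G b S := by
  have hop : ∀ s, (G.op (G.nxt^[s] a) ∈ S ∨ G.op (G.op (G.nxt^[s] a)) ∈ S) ↔
      (G.nxt^[s] a ∈ S ∨ G.op (G.nxt^[s] a) ∈ S) := by
    intro s
    rw [G.op_op]
    exact or_comm
  have hn : ∀ s, G.nxt (G.nxt^[s] a) = G.nxt^[s + 1] a := fun s =>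
    (Function.iterate_succ_apply' G.nxt s a).symm
  have t1 : trS G S (G.nxt^[r'] a) = G.op (G.nxt^[r' - 1] a) := by
    rw [trS_of h']
    have := hT.big a ha (r' - 1) (by omega)
    rw [show r' - 1 + 1 = r' by omega] at this
    exact this
  have t2 : ∀ s, r < s → s < r' → trS G S (G.nxt^[s] a) = G.nxt^[s + 1] a := by
    intro s h1 h2
    rw [trS_of_not (hbet s h1 h2), hn]
  have t3 : trS G S (G.op (G.nxt^[r] a)) = G.nxt^[r + 1] a := by
    rw [trS_of ((hop r).2 h), G.op_op, hn]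
  have t4 : ∀ s, r < s → s < r' → trS G S (G.op (G.nxt^[s] a)) = G.op (G.nxt^[s - 1] a) := by
    intro s h1 h2
    rw [trS_of_not (fun hc => hbet s h1 h2 ((hop s).1 hc))]
    have := hT.big a ha (s - 1) (by omega)
    rw [show s - 1 + 1 = s by omega] at this
    exact this
  refine not_Sg_of_inv b (fun x => (∃ s, r < s ∧ s ≤ r' ∧ x = G.nxt^[s] a) ∨
    ∃ s, r ≤ s ∧ s < r' ∧ x = G.op (G.nxt^[s] a)) ?_ ?_ (p := G.nxt^[r] a) (q := G.nxt^[r'] a) ?_ ?_
  · rintro x (⟨s, h1, h2, rfl⟩ | ⟨s, h1, h2, rfl⟩)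
    · rcases Nat.lt_or_ge s r' with h3 | h3
      · left
        exact ⟨s + 1, by omega, by omega, t2 s h1 h3⟩
      · right
        have h4 : s = r' := by omega
        exact ⟨r' - 1, by omega, by omega, by rw [h4, t1]⟩
    · rcases Nat.lt_or_ge r s with h3 | h3
      · right
        exact ⟨s - 1, by omega, by omega, t4 s h3 h2⟩
      · left
        have h4 : s = r := by omega
        exact ⟨r + 1, by omega, by omega, by rw [h4, t3]⟩
  · rintro x (⟨s, h1, h2, rfl⟩ | ⟨s, h1, h2, rfl⟩)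
    · rcases Nat.lt_or_ge (r + 1) s with h3 | h3
      · refine ⟨G.nxt^[s - 1] a, Or.inl ⟨s - 1, by omega, by omega, rfl⟩, ?_⟩
        rw [t2 (s - 1) (by omega) (by omega), show s - 1 + 1 = s by omega]
      · have h4 : s = r + 1 := by omega
        refine ⟨G.op (G.nxt^[r] a), Or.inr ⟨r, le_rfl, hr, rfl⟩, ?_⟩
        rw [t3, h4]
    · rcases Nat.lt_or_ge (s + 1) r' with h3 | h3
      · refine ⟨G.op (G.nxt^[s + 1] a), Or.inr ⟨s + 1, by omega, by omega, rfl⟩, ?_⟩
        rw [t4 (s + 1) (by omega) (by omega), show s + 1 - 1 = s by omega]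
      · have h4 : s = r' - 1 := by omega
        refine ⟨G.nxt^[r'] a, Or.inl ⟨r', hr, le_rfl, rfl⟩, ?_⟩
        rw [t1, h4]
  · rintro (⟨s, h1, h2, h3⟩ | ⟨s, h1, h2, h3⟩)
    · have := (hT.inj a ha a ha r (by omega) s (by omega) (Or.inl h3)).2
      omega
    · have h4 := (hT.inj a ha a ha r (by omega) s (by omega) (Or.inr h3)).2
      rw [← h4] at h3
      exact ho _ h3.symm
  · exact Or.inl ⟨r', hr, le_rfl, rfl⟩

/-- **A one-component state smooths at most one crossing of a region.** -/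
theorem two {G : Sh P} {A : Finset P} {m : P → ℕ} (hT : Twist G A m) (ho : ∀ i, G.op i ≠ i)
    {a : P} (ha : a ∈ A) {r r' : ℕ} (hr : r < r') (hr' : r' < m a) {S : Finset P}
    (h : G.nxt^[r] a ∈ S ∨ G.op (G.nxt^[r] a) ∈ S)
    (h' : G.nxt^[r'] a ∈ S ∨ G.op (G.nxt^[r'] a) ∈ S) (b : P) : ¬ Sg G b S := by
  have hex : ∃ s, r < s ∧ (G.nxt^[s] a ∈ S ∨ G.op (G.nxt^[s] a) ∈ S) := ⟨r', hr, h'⟩
  have hle : Nat.find hex ≤ r' := Nat.find_min' hex ⟨hr, h'⟩
  exact two_cons hT ho ha (Nat.find_spec hex).1 (by omega) h (Nat.find_spec hex).2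
    (fun s h1 h2 hc => Nat.find_min hex h2 ⟨h1, hc⟩) b

end Pool.Agent.Helper41.TW
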